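import Pool.Agent.Helper86.CK.KerK

/-!
The packed algebra `AK` with fewer reduction steps: definitions.
-/

set_option autoImplicit false
set_option exponentiation.threshold 4000
noncomputable section
namespace Pool.Agent.Helper57.AKY

open Pool.Agent.Helper86.C75 (Z)
open Pool.Agent.Helper86.CX hiding nb
open Pool.Agent.Helper86.CT
open Pool.Agent.Helper86.CK

/-! ### signs -/

/-- `t - u d` -/
def sP (t u : Nat) (d : Z) : Nat :=
  Z.rec (motive := fun _ => Nat) (fun v => Nat.sub t (Nat.mul u v)) (fun v => Nat.add t (Nat.mul u v)) d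
/-- `t + u d` -/
def sM (t u : Nat) (d : Z) : Nat :=
  Z.rec (motive := fun _ => Nat) (fun v => Nat.add t (Nat.mul u v)) (fun v => Nat.sub t (Nat.mul u v)) d
/-- `t - b d` -/
def sB (b d : Z) (t : Nat) : Nat :=
  Z.rec (motive := fun _ => Nat) (fun u => sP t u d) (fun u => sM t u d) b
/-- `t + b d` -/
def aB (b d : Z) (t : Nat) : Nat :=
  Z.rec (motive := fun _ => Nat) (fun u => sM t u d) (fun u => sP t u d) b
/-- `K + a c - b d` -/
def dmP (K x : Nat) (c b d : Z) : Nat :=
  Z.rec (motive := fun _ => Nat) (fun y => sB b d (Nat.add K (Nat.mul x y)))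
    (fun y => Nat.sub (sB b d K) (Nat.mul x y)) c
def dmM (K x : Nat) (c b d : Z) : Nat :=
  Z.rec (motive := fun _ => Nat) (fun y => Nat.sub (sB b d K) (Nat.mul x y))
    (fun y => sB b d (Nat.add K (Nat.mul x y))) c
def dmu (K : Nat) (a c b d : Z) : Nat :=
  Z.rec (motive := fun _ => Nat) (fun x => dmP K x c b d) (fun x => dmM K x c b d) a
/-- `K + a c + b d` -/
def emP (K x : Nat) (c b d : Z) : Nat :=
  Z.rec (motive := fun _ => Nat) (fun y => aB b d (Nat.add K (Nat.mul x y)))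
    (fun y => Nat.sub (aB b d K) (Nat.mul x y)) c
def emM (K x : Nat) (c b d : Z) : Nat :=
  Z.rec (motive := fun _ => Nat) (fun y => Nat.sub (aB b d K) (Nat.mul x y))
    (fun y => aB b d (Nat.add K (Nat.mul x y))) c
def emu (K : Nat) (a c b d : Z) : Nat :=
  Z.rec (motive := fun _ => Nat) (fun x => emP K x c b d) (fun x => emM K x c b d) a

/-! ### sums -/

/-- `a - b` -/
def zs (a b : Nat) : Z :=
  Bool.rec (motive := fun _ => Z) (Z.m (Nat.sub b a)) (Z.p (Nat.sub a b)) (Nat.ble b a)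
def adY (x y : Z) : Z :=
  Z.rec (motive := fun _ => Z)
    (fun a => Z.rec (motive := fun _ => Z) (fun b => Z.p (Nat.add a b)) (fun b => zs a b) y)
    (fun a => Z.rec (motive := fun _ => Z) (fun b => zs b a) (fun b => Z.m (Nat.add a b)) y) x
def suY (x y : Z) : Z :=
  Z.rec (motive := fun _ => Z)
    (fun a => Z.rec (motive := fun _ => Z) (fun b => zs a b) (fun b => Z.p (Nat.add a b)) y)
    (fun a => Z.rec (motive := fun _ => Z) (fun b => Z.m (Nat.add a b)) (fun b => zs b a) y) x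

/-! ### one direction -/

def stgY (d : DC) (U : Nat) : Nat :=
  Nat.sub (Nat.add (Nat.add (Nat.mul (nat_lit 4) (Nat.add (Nat.land U d.m0) (Nat.shiftRight (Nat.land U d.m4) d.s2)))
    (Nat.shiftRight (Nat.land U d.m2) d.s)) d.c)
    (Nat.add (Nat.shiftLeft (Nat.land U d.m0) d.s) (Nat.shiftRight (Nat.land U d.m4) d.s3))
def trY (d : DC) (U : Nat) : Nat :=
  Nat.sub (Nat.add (Nat.add (Nat.add (Nat.add (Nat.shiftRight (Nat.land U d.tc) d.s) (Nat.shiftRight (Nat.land U d.tb) d.s))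
    (Nat.shiftLeft (Nat.land U d.ta) d.s2)) (Nat.land U d.tb)) d.k)
    (Nat.shiftLeft (Nat.add (Nat.land U d.ta) (Nat.land U d.tc)) d.s)
def dblY (d : DC) (U : Nat) : Nat := Nat.add U (Nat.land U d.tc)

/-- absolute values: `O` offset, `o` ones -/
def abY3 (O V t s : Nat) : Nat :=
  Nat.sub (Nat.add (Nat.land V (Nat.sub s t)) O)
    (Nat.add (Nat.sub V (Nat.land V (Nat.sub s t))) s)
def abY2 (O V t : Nat) : Nat := abY3 O V t (Nat.shiftLeft t (nat_lit 144))
def abY1 (O o V : Nat) : Nat := abY2 O V (Nat.land (Nat.shiftRight V (nat_lit 143)) o)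

/-- upper bound of a modulus -/
def sqY2 (a b c : Nat) : Nat :=
  Nat.sub c (Nat.div (Nat.sub c (Nat.add (Nat.div (Nat.add (Nat.mul a a) (Nat.mul b b)) c) (nat_lit 1))) (nat_lit 2))
def sqY (a b : Nat) : Nat :=
  sqY2 a b (Nat.div (Nat.add (Nat.add (Nat.add a b) (Nat.add a (Nat.sub b a))) (nat_lit 1)) (nat_lit 2))

end Pool.Agent.Helper57.AKY
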