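import Pool.Agent.Helper57.AKY.D

/-!
The operations of the packed algebra with fewer reduction steps: equalities.
-/

set_option autoImplicit false
set_option exponentiation.threshold 4000
noncomputable section
namespace Pool.Agent.Helper57.AKY

open Pool.Agent.Helper86.C75 (Z)
open Pool.Agent.Helper86.CX hiding nb
open Pool.Agent.Helper86.CT
open Pool.Agent.Helper86.CK

theorem zs_eq1 (a b : Nat) : Z.add (Z.p a) (Z.m b) = zs a b := by
  show Z.sub'' b a = _
  unfold Z.sub'' zs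
  cases Nat.ble b a <;> rfl
theorem zs_eq2 (a b : Nat) : Z.add (Z.m b) (Z.p a) = zs a b := by
  show Z.sub' a b = _
  unfold Z.sub' zs
  cases Nat.ble b a <;> rfl

theorem adY_eq (x y : Z) : adY x y = Z.add x y := by
  cases x with
  | p a => cases y with
    | p b => exact congrArg Z.p (Nat.add_comm a b)
    | m b => exact (zs_eq1 a b).symm
  | m a => cases y with
    | p b => exact (zs_eq2 b a).symm
    | m b => exact congrArg Z.m (Nat.add_comm a b)

theorem suY_eq (x y : Z) : suY x y = Z.sub x y := by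
  cases x with
  | p a => cases y with
    | p b => exact (zs_eq1 a b).symm
    | m b => exact congrArg Z.p (Nat.add_comm a b)
  | m a => cases y with
    | p b => exact congrArg Z.m (Nat.add_comm a b)
    | m b => exact (zs_eq2 b a).symm

theorem ofs_zs (K a b : ℕ) : ofs K (zs a b) = K + a - b := by
  unfold zs
  cases h : Nat.ble b a with
  | true =>
    have h1 := Nat.le_of_ble_eq_true h
    show K + (a - b) = K + a - b
    omega
  | false =>
    have h1 : ¬ b ≤ a := fun h2 => by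
      rw [Nat.ble_eq_true_of_le h2] at h
      exact absurd h (by decide)
    show K - (b - a) = K + a - b
    omega

theorem mu_pp (x y : ℕ) : Z.mul (Z.p x) (Z.p y) = Z.p (x * y) := congrArg Z.p (Nat.mul_comm y x)
theorem mu_pm (x y : ℕ) : Z.mul (Z.p x) (Z.m y) = Z.m (x * y) := congrArg Z.m (Nat.mul_comm y x)
theorem mu_mp (x y : ℕ) : Z.mul (Z.m x) (Z.p y) = Z.m (x * y) := congrArg Z.m (Nat.mul_comm y x)
theorem mu_mm (x y : ℕ) : Z.mul (Z.m x) (Z.m y) = Z.p (x * y) := congrArg Z.p (Nat.mul_comm y x)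

theorem os_pp (K x y : ℕ) : ofs K (Z.sub (Z.p x) (Z.p y)) = K + x - y :=
  (congrArg (ofs K) (zs_eq1 x y)).trans (ofs_zs K x y)
theorem os_pm (K x y : ℕ) : ofs K (Z.sub (Z.p x) (Z.m y)) = K + x + y := by
  show K + (y + x) = K + x + y
  omega
theorem os_mp (K x y : ℕ) : ofs K (Z.sub (Z.m x) (Z.p y)) = K - y - x := by
  show K - (y + x) = K - y - x
  omega
theorem os_mm (K x y : ℕ) : ofs K (Z.sub (Z.m x) (Z.m y)) = K + y - x :=
  (congrArg (ofs K) (zs_eq2 y x)).trans (ofs_zs K y x)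
theorem oa_pp (K x y : ℕ) : ofs K (Z.add (Z.p x) (Z.p y)) = K + x + y := by
  show K + (y + x) = K + x + y
  omega
theorem oa_pm (K x y : ℕ) : ofs K (Z.add (Z.p x) (Z.m y)) = K + x - y :=
  (congrArg (ofs K) (zs_eq1 x y)).trans (ofs_zs K x y)
theorem oa_mp (K x y : ℕ) : ofs K (Z.add (Z.m x) (Z.p y)) = K + y - x :=
  (congrArg (ofs K) (zs_eq2 y x)).trans (ofs_zs K y x)
theorem oa_mm (K x y : ℕ) : ofs K (Z.add (Z.m x) (Z.m y)) = K - y - x := by
  show K - (y + x) = K - y - x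
  omega

theorem dmu_eq (K : ℕ) (a c b d : Z) : dmu K a c b d = ofs K (Z.sub (Z.mul a c) (Z.mul b d)) := by
  cases a <;> cases c <;> cases b <;> cases d <;>
    simp only [mu_pp, mu_pm, mu_mp, mu_mm, os_pp, os_pm, os_mp, os_mm] <;> rfl

theorem emu_eq (K : ℕ) (a c b d : Z) : emu K a c b d = ofs K (Z.add (Z.mul a c) (Z.mul b d)) := by
  cases a <;> cases c <;> cases b <;> cases d <;>
    simp only [mu_pp, mu_pm, mu_mp, mu_mm, oa_pp, oa_pm, oa_mp, oa_mm] <;> rfl

theorem zid_eq (z : Z) : (Z.rec (motive := fun _ => Z) (fun x => Z.p x) (fun x => Z.m x) z : Z) = z := by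
  cases z <;> rfl

/-- upper bound of a modulus -/
def sqZ (a b : Nat) : Nat :=
  Nat.sub (Nat.div (Nat.add (Nat.add (Nat.add a b) (Nat.add a (Nat.sub b a))) (nat_lit 1)) (nat_lit 2)) (Nat.div (Nat.sub (Nat.div (Nat.add (Nat.add (Nat.add a b) (Nat.add a (Nat.sub b a))) (nat_lit 1)) (nat_lit 2)) (Nat.add (Nat.div (Nat.add (Nat.mul a a) (Nat.mul b b)) (Nat.div (Nat.add (Nat.add (Nat.add a b) (Nat.add a (Nat.sub b a))) (nat_lit 1)) (nat_lit 2))) (nat_lit 1))) (nat_lit 2))

theorem PA_ext {D : ℕ} {X Y : PA D} (h1 : X.I = Y.I) (h2 : X.sh = Y.sh) (h3 : X.re = Y.re)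
    (h4 : X.im = Y.im) (h5 : X.ok = Y.ok) (h6 : X.k = Y.k) : X = Y := by
  cases X
  cases Y
  dsimp only at h1 h2 h3 h4 h5 h6
  subst h1 h2 h3 h4 h5 h6
  rfl

/-- the zero test of a product -/
theorem rd_eq {C : LC} {f : Nat → Z} (hf : ∀ U, f U = rd1 C U) (h0 : rd1 C (Nat.mul HB C.o5) = Z.p 0)
    (hp : 0 < Nat.mul HB C.o5) (z : Z) :
    (Bool.rec (motive := fun _ => Z) (f (ofs (Nat.mul HB C.o5) z)) (Z.p (nat_lit 0))
      (Nat.beq (ofs (Nat.mul HB C.o5) z) (Nat.mul HB C.o5)) : Z) = rd C z := by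
  have bt : ∀ a b : ℕ, a = b → Nat.beq a b = true := fun a b h => by rw [h]; exact Nat.beq_refl b
  have bf : ∀ a b : ℕ, a ≠ b → Nat.beq a b = false := fun a b h => by
    cases h1 : Nat.beq a b with
    | false => rfl
    | true => exact absurd (Nat.eq_of_beq_eq_true h1) h
  cases z with
  | p n =>
    by_cases h : n = 0
    · subst h
      have e : ofs (Nat.mul HB C.o5) (Z.p 0) = Nat.mul HB C.o5 := rfl
      rw [e, bt _ _ rfl]
      rfl
    · have e : ofs (Nat.mul HB C.o5) (Z.p n) = Nat.mul HB C.o5 + n := rfl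
      have e1 : rd C (Z.p n) = Bool.rec (motive := fun _ => Z) (rd1 C (Nat.mul HB C.o5 + n))
        (Z.p (nat_lit 0)) (Nat.beq n (nat_lit 0)) := rfl
      rw [e, e1, bf _ _ (by omega), bf n 0 h, hf]
  | m n =>
    have e : ofs (Nat.mul HB C.o5) (Z.m n) = Nat.mul HB C.o5 - n := rfl
    have e1 : rd C (Z.m n) = rd1 C (Nat.mul HB C.o5 - n) := rfl
    by_cases h : n = 0
    · subst h
      rw [e, e1, bt _ _ (Nat.sub_zero _), Nat.sub_zero, h0]
    · rw [e, e1, bf _ _ (by omega), hf]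

end Pool.Agent.Helper57.AKY
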