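import Pool.Agent.Helper57.AKY.L

/-!
The packed algebra of depth 1 with fewer reduction steps.
-/

set_option autoImplicit false
set_option exponentiation.threshold 4000
noncomputable section
namespace Pool.Agent.Helper57.AKY.Y1

open Pool.Agent.Helper86.C75 (Z)
open Pool.Agent.Helper86.CX hiding nb
open Pool.Agent.Helper86.CT
open Pool.Agent.Helper86.CK
open Pool.Agent.Helper57.AKY
open Pool.Agent.Helper90.C75 (Vt)

def d0 : DC := (nwD C0.w C0.W C0.o5 C0.o3)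
def H3 : Nat := Nat.mul HB C1.o3
def H5 : Nat := Nat.mul HB C1.o5
def HS : Nat := Nat.add (Nat.mul (nat_lit 1152921504606846976) C1.od) C1.W
def MS : Nat := Nat.sub (Nat.mul (nat_lit 2305843009213693952) C1.od) C1.o3
def W1 : Nat := C1.W
def F1 : Nat := Nat.mul (Nat.shiftRight HB C1.sr) C1.od
def F2 : Nat := Nat.mul (Nat.shiftRight B1 C1.sr) C1.o3
def SR : Nat := C1.sr
def O3 : Nat := C1.o3
def G1 : Nat := Nat.mul (nat_lit 39614081257132168796771975168) C1.o3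
def G2 : Nat := mkC C1
def rd1Y (U : Nat) : Z := (toz F1 (Nat.add (Nat.land (Nat.shiftRight (Nat.sub (Nat.add (Nat.add (Nat.mul (nat_lit 4) (Nat.add (Nat.land U d0.m0) (Nat.shiftRight (Nat.land U d0.m4) d0.s2))) (Nat.shiftRight (Nat.land U d0.m2) d0.s)) d0.c) (Nat.add (Nat.shiftLeft (Nat.land U d0.m0) d0.s) (Nat.shiftRight (Nat.land U d0.m4) d0.s3))) SR) F2) (Nat.land (Nat.land (Nat.shiftRight (Nat.sub (Nat.add (Nat.add (Nat.mul (nat_lit 4) (Nat.add (Nat.land U d0.m0) (Nat.shiftRight (Nat.land U d0.m4) d0.s2))) (Nat.shiftRight (Nat.land U d0.m2) d0.s)) d0.c) (Nat.add (Nat.shiftLeft (Nat.land U d0.m0) d0.s) (Nat.shiftRight (Nat.land U d0.m4) d0.s3))) SR) F2) d0.tc)))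
def rdY (U : Nat) : Z := Bool.rec (motive := fun _ => Z) (toz F1 (Nat.add (Nat.land (Nat.shiftRight (Nat.sub (Nat.add (Nat.add (Nat.mul (nat_lit 4) (Nat.add (Nat.land U d0.m0) (Nat.shiftRight (Nat.land U d0.m4) d0.s2))) (Nat.shiftRight (Nat.land U d0.m2) d0.s)) d0.c) (Nat.add (Nat.shiftLeft (Nat.land U d0.m0) d0.s) (Nat.shiftRight (Nat.land U d0.m4) d0.s3))) SR) F2) (Nat.land (Nat.land (Nat.shiftRight (Nat.sub (Nat.add (Nat.add (Nat.mul (nat_lit 4) (Nat.add (Nat.land U d0.m0) (Nat.shiftRight (Nat.land U d0.m4) d0.s2))) (Nat.shiftRight (Nat.land U d0.m2) d0.s)) d0.c) (Nat.add (Nat.shiftLeft (Nat.land U d0.m0) d0.s) (Nat.shiftRight (Nat.land U d0.m4) d0.s3))) SR) F2) d0.tc))) (Z.p (nat_lit 0)) (Nat.beq U H5)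
def mcY (U : Nat) : Z := (toz G1 (Nat.land (Nat.shiftRight U (nat_lit 48)) G2))
def smY (z : Z) : Bool := Z.rec (motive := fun _ => Bool) (fun x => (Nat.beq (Nat.add HS x) (Nat.add (Nat.land (Nat.add HS x) MS) W1))) (fun x => (Nat.beq (Nat.sub HS x) (Nat.add (Nat.land (Nat.sub HS x) MS) W1))) z
def abJ (V : Nat) : Nat := Nat.sub (Nat.add (Nat.land V (Nat.sub (Nat.shiftLeft (Nat.land (Nat.shiftRight V (nat_lit 143)) O3) (nat_lit 144)) (Nat.land (Nat.shiftRight V (nat_lit 143)) O3))) H3) (Nat.add (Nat.sub V (Nat.land V (Nat.sub (Nat.shiftLeft (Nat.land (Nat.shiftRight V (nat_lit 143)) O3) (nat_lit 144)) (Nat.land (Nat.shiftRight V (nat_lit 143)) O3)))) (Nat.shiftLeft (Nat.land (Nat.shiftRight V (nat_lit 143)) O3) (nat_lit 144)))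
def abTY (z : Z) : Nat := Z.rec (motive := fun _ => Nat) (fun x => abJ (Nat.sub (Nat.add (Nat.add (Nat.add (Nat.add (Nat.shiftRight (Nat.land (Nat.add H3 x) d0.tc) d0.s) (Nat.shiftRight (Nat.land (Nat.add H3 x) d0.tb) d0.s)) (Nat.shiftLeft (Nat.land (Nat.add H3 x) d0.ta) d0.s2)) (Nat.land (Nat.add H3 x) d0.tb)) d0.k) (Nat.shiftLeft (Nat.add (Nat.land (Nat.add H3 x) d0.ta) (Nat.land (Nat.add H3 x) d0.tc)) d0.s))) (fun x => abJ (Nat.sub (Nat.add (Nat.add (Nat.add (Nat.add (Nat.shiftRight (Nat.land (Nat.sub H3 x) d0.tc) d0.s) (Nat.shiftRight (Nat.land (Nat.sub H3 x) d0.tb) d0.s)) (Nat.shiftLeft (Nat.land (Nat.sub H3 x) d0.ta) d0.s2)) (Nat.land (Nat.sub H3 x) d0.tb)) d0.k) (Nat.shiftLeft (Nat.add (Nat.land (Nat.sub H3 x) d0.ta) (Nat.land (Nat.sub H3 x) d0.tc)) d0.s))) z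
def mR (a b : Z) (k : Bool) (c d : Z) (l : Bool) : Z :=
  Bool.rec (motive := fun _ => Z)
    (Bool.rec (motive := fun _ => Z) (rdY (dmu H5 a c b d)) (mcY (dmu H3 (lowZ c) a (lowZ d) b)) l)
    (mcY (dmu H3 (lowZ a) c (lowZ b) d)) k
def mI (a b : Z) (k : Bool) (c d : Z) (l : Bool) : Z :=
  Bool.rec (motive := fun _ => Z)
    (Bool.rec (motive := fun _ => Z) (rdY (emu H5 a d b c)) (mcY (emu H3 (lowZ c) b (lowZ d) a)) l)
    (mcY (emu H3 (lowZ a) d (lowZ b) c)) k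
def nbY (X : (PA 1)) : Nat :=
  Bool.rec (motive := fun _ => Nat) (gnb X.I) (Nat.shiftRight (Nat.add (sqZ (Nat.mod (abTY X.re) B1) (Nat.mod (abTY X.im) B1)) (nat_lit 1)) (nat_lit 1)) X.ok
def dfL (x y : Nat) : List DF := (⟨(cd (nat_lit 0) (sqZ (Nat.mod (Nat.land x d0.tc) B1) (Nat.mod (Nat.land y d0.tc) B1))), (Nat.shiftRight (Nat.add (sqZ (Nat.mod (Nat.land x d0.tb) B1) (Nat.mod (Nat.land y d0.tb) B1)) (nat_lit 1)) (nat_lit 1))⟩ :: [])
def dfY (X : (PA 1)) : List DF :=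
  Bool.rec (motive := fun _ => List DF) (gdf X) (dfL (abTY X.re) (abTY X.im)) X.ok

theorem h0 : rd1 C1 (Nat.mul HB C1.o5) = Z.p 0 := by
  have h : Z.rec (motive := fun _ => Bool) (fun n => Nat.beq n (nat_lit 0)) (fun _ => false)
    (rd1 C1 (Nat.mul HB C1.o5)) = true := by decide +kernel
  cases e : rd1 C1 (Nat.mul HB C1.o5) with
  | p n =>
    rw [e] at h
    exact congrArg Z.p (Nat.eq_of_beq_eq_true h)
  | m n =>
    rw [e] at h
    exact absurd (show false = true from h) (by decide)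
theorem hp : 0 < Nat.mul HB C1.o5 := by decide +kernel
theorem rd1Y_eq (U : Nat) : rd1Y U = rd1 C1 U := by
  have e : rd1 C1 U = toz F1 (dblY d0 (Nat.land (Nat.shiftRight (stgY d0 U) SR) F2)) := rfl
  refine Eq.trans ?_ e.symm
  exact congrArg (toz F1) rfl
theorem rdY_eq (z : Z) : rdY (ofs H5 z) = rd C1 z := rd_eq rd1Y_eq h0 hp z
theorem mcY_eq (z : Z) : mcY (ofs H3 z) = mc C1 z := rfl
theorem smY_eq (z : Z) : smY z = sm C1 z := by cases z <;> rfl
theorem abTY_eq (z : Z) : abTY z = abT C1 z := by cases z <;> rfl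
theorem mR_eq (X Y : (PA 1)) : mR X.re X.im X.k Y.re Y.im Y.k = mulR C1 X Y := by
  unfold mR mulR
  rw [dmu_eq, dmu_eq, dmu_eq, rdY_eq, mcY_eq, mcY_eq]
theorem mI_eq (X Y : (PA 1)) : mI X.re X.im X.k Y.re Y.im Y.k = mulI C1 X Y := by
  unfold mI mulI
  rw [emu_eq, emu_eq, emu_eq, rdY_eq, mcY_eq, mcY_eq]
theorem mul_hY (X Y : (PA 1)) (h : andB (andB X.ok Y.ok) (andB (smY (mR X.re X.im X.k Y.re Y.im Y.k))
      (smY (mI X.re X.im X.k Y.re Y.im Y.k))) = true) :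
    PR 1 (gmul 1 X.I Y.I) (Z.rec (motive := fun _ => Z) (fun x => Z.p x) (fun x => Z.m x)
      (mR X.re X.im X.k Y.re Y.im Y.k)) (Z.rec (motive := fun _ => Z) (fun x => Z.p x) (fun x => Z.m x)
      (mI X.re X.im X.k Y.re Y.im Y.k)) := by
  rw [mR_eq, mI_eq, smY_eq, smY_eq] at h
  rw [mR_eq, mI_eq, zid_eq, zid_eq]
  exact mul_h hC1 X Y h
theorem add_hY (X Y : (PA 1)) (h : andB (andB X.ok Y.ok) (andB (smY (adY X.re Y.re))
      (smY (adY X.im Y.im))) = true) :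
    PR 1 (fun v => X.I v + Y.I v) (Z.rec (motive := fun _ => Z) (fun x => Z.p x) (fun x => Z.m x)
      (adY X.re Y.re)) (Z.rec (motive := fun _ => Z) (fun x => Z.p x) (fun x => Z.m x)
      (adY X.im Y.im)) := by
  rw [adY_eq, adY_eq, smY_eq, smY_eq] at h
  rw [adY_eq, adY_eq, zid_eq, zid_eq]
  exact add_h hC1 X Y h
theorem sub_hY (X Y : (PA 1)) (h : andB (andB X.ok Y.ok) (andB (smY (suY X.re Y.re))
      (smY (suY X.im Y.im))) = true) :
    PR 1 (fun v => X.I v - Y.I v) (Z.rec (motive := fun _ => Z) (fun x => Z.p x) (fun x => Z.m x)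
      (suY X.re Y.re)) (Z.rec (motive := fun _ => Z) (fun x => Z.p x) (fun x => Z.m x)
      (suY X.im Y.im)) := by
  rw [suY_eq, suY_eq, smY_eq, smY_eq] at h
  rw [suY_eq, suY_eq, zid_eq, zid_eq]
  exact sub_h hC1 X Y h

def mulY (X Y : (PA 1)) : (PA 1) :=
  PA.rec (motive := fun _ => (PA 1)) (fun I sh re im ok k hs h hk =>
    PA.rec (motive := fun _ => (PA 1)) (fun I' sh' re' im' ok' k' hs' h' hk' =>
      ⟨gmul 1 I I', orL sh sh', (Z.rec (motive := fun _ => Z) (fun x => Z.p x) (fun x => Z.m x) (mR re im k re' im' k')), (Z.rec (motive := fun _ => Z) (fun x => Z.p x) (fun x => Z.m x) (mI re im k re' im' k')), (Bool.rec (motive := fun _ => Bool) false (Bool.rec (motive := fun _ => Bool) false (smY (mI re im k re' im' k')) (smY (mR re im k re' im' k'))) (Bool.rec (motive := fun _ => Bool) false ok' ok)), (Bool.rec (motive := fun _ => Bool) false k' k),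
        mul_hs ⟨I, sh, re, im, ok, k, hs, h, hk⟩ ⟨I', sh', re', im', ok', k', hs', h', hk'⟩, mul_hY ⟨I, sh, re, im, ok, k, hs, h, hk⟩ ⟨I', sh', re', im', ok', k', hs', h', hk'⟩, mul_hk ⟨I, sh, re, im, ok, k, hs, h, hk⟩ ⟨I', sh', re', im', ok', k', hs', h', hk'⟩⟩) Y) X
def addY (X Y : (PA 1)) : (PA 1) :=
  PA.rec (motive := fun _ => (PA 1)) (fun I sh re im ok k hs h hk =>
    PA.rec (motive := fun _ => (PA 1)) (fun I' sh' re' im' ok' k' hs' h' hk' =>
      ⟨fun v => I v + I' v, orL sh sh', (Z.rec (motive := fun _ => Z) (fun x => Z.p x) (fun x => Z.m x) (adY re re')), (Z.rec (motive := fun _ => Z) (fun x => Z.p x) (fun x => Z.m x) (adY im im')), (Bool.rec (motive := fun _ => Bool) false (Bool.rec (motive := fun _ => Bool) false (smY (adY im im')) (smY (adY re re'))) (Bool.rec (motive := fun _ => Bool) false ok' ok)), (Bool.rec (motive := fun _ => Bool) false k' k),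
        add_hs ⟨I, sh, re, im, ok, k, hs, h, hk⟩ ⟨I', sh', re', im', ok', k', hs', h', hk'⟩, add_hY ⟨I, sh, re, im, ok, k, hs, h, hk⟩ ⟨I', sh', re', im', ok', k', hs', h', hk'⟩, add_hk ⟨I, sh, re, im, ok, k, hs, h, hk⟩ ⟨I', sh', re', im', ok', k', hs', h', hk'⟩⟩) Y) X
def subY (X Y : (PA 1)) : (PA 1) :=
  PA.rec (motive := fun _ => (PA 1)) (fun I sh re im ok k hs h hk =>
    PA.rec (motive := fun _ => (PA 1)) (fun I' sh' re' im' ok' k' hs' h' hk' =>
      ⟨fun v => I v - I' v, orL sh sh', (Z.rec (motive := fun _ => Z) (fun x => Z.p x) (fun x => Z.m x) (suY re re')), (Z.rec (motive := fun _ => Z) (fun x => Z.p x) (fun x => Z.m x) (suY im im')), (Bool.rec (motive := fun _ => Bool) false (Bool.rec (motive := fun _ => Bool) false (smY (suY im im')) (smY (suY re re'))) (Bool.rec (motive := fun _ => Bool) false ok' ok)), (Bool.rec (motive := fun _ => Bool) false k' k),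
        sub_hs ⟨I, sh, re, im, ok, k, hs, h, hk⟩ ⟨I', sh', re', im', ok', k', hs', h', hk'⟩, sub_hY ⟨I, sh, re, im, ok, k, hs, h, hk⟩ ⟨I', sh', re', im', ok', k', hs', h', hk'⟩, sub_hk ⟨I, sh, re, im, ok, k, hs, h, hk⟩ ⟨I', sh', re', im', ok', k', hs', h', hk'⟩⟩) Y) X
def nwY (n : Nat) (X Y : (PA 1)) : (PA 1) :=
  Nat.rec (motive := fun _ => (PA 1) → (PA 1)) (fun Y => Y)
    (fun _ ih Y => ih (mulY Y (subY (csK hC1 ⟨Z.p (nat_lit 562949953421312), Z.p (nat_lit 0)⟩) (mulY X Y)))) n Y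
def invY (X : (PA 1)) : (PA 1) := nwY (nat_lit 7) X (csK hC1 (cdiv one1 (midK C1 X)))
def AY : Alg (PA 1) := ⟨addY, subY, mulY, q4K, cjK, csK hC1, invY, nbY, dfY⟩

theorem mulY_eq : mulY = mulK hC1 := by
  funext X Y
  refine PA_ext rfl rfl ((zid_eq _).trans (mR_eq X Y)) ((zid_eq _).trans (mI_eq X Y)) ?_ rfl
  show andB (andB X.ok Y.ok) (andB (smY (mR X.re X.im X.k Y.re Y.im Y.k)) (smY (mI X.re X.im X.k Y.re Y.im Y.k))) =
    andB (andB X.ok Y.ok) (andB (sm C1 (mulR C1 X Y)) (sm C1 (mulI C1 X Y)))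
  rw [mR_eq, mI_eq, smY_eq, smY_eq]
theorem addY_eq : addY = addK hC1 := by
  funext X Y
  refine PA_ext rfl rfl ((zid_eq _).trans (adY_eq _ _)) ((zid_eq _).trans (adY_eq _ _)) ?_ rfl
  show andB (andB X.ok Y.ok) (andB (smY (adY X.re Y.re)) (smY (adY X.im Y.im))) =
    andB (andB X.ok Y.ok) (andB (sm C1 (Z.add X.re Y.re)) (sm C1 (Z.add X.im Y.im)))
  rw [adY_eq, adY_eq, smY_eq, smY_eq]
theorem subY_eq : subY = subK hC1 := by
  funext X Y
  refine PA_ext rfl rfl ((zid_eq _).trans (suY_eq _ _)) ((zid_eq _).trans (suY_eq _ _)) ?_ rfl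
  show andB (andB X.ok Y.ok) (andB (smY (suY X.re Y.re)) (smY (suY X.im Y.im))) =
    andB (andB X.ok Y.ok) (andB (sm C1 (Z.sub X.re Y.re)) (sm C1 (Z.sub X.im Y.im)))
  rw [suY_eq, suY_eq, smY_eq, smY_eq]
theorem nbY_eq : nbY = nbK C1 := by
  funext X
  unfold nbY nbK
  rw [abTY_eq, abTY_eq]
  rfl
theorem dfY_eq : dfY = dfK C1 := by
  funext X
  unfold dfY dfK
  rw [abTY_eq, abTY_eq]
  rfl
theorem invY_eq : invY = invK hC1 := by
  funext X
  unfold invY invK nwY nwt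
  rw [mulY_eq, subY_eq]
/-- the algebra is unchanged -/
theorem AY_eq : AY = AK hC1 := by
  unfold AY AK
  rw [addY_eq, subY_eq, mulY_eq, invY_eq, nbY_eq, dfY_eq]

end Pool.Agent.Helper57.AKY.Y1
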