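import Pool.Agent.Helper57.AKY.L

/-!
The packed algebra of depth 2 with fewer reduction steps.
-/

set_option autoImplicit false
set_option exponentiation.threshold 4000
noncomputable section
namespace Pool.Agent.Helper57.AKY.Y2

open Pool.Agent.Helper86.C75 (Z)
open Pool.Agent.Helper86.CX hiding nb
open Pool.Agent.Helper86.CT
open Pool.Agent.Helper86.CK
open Pool.Agent.Helper57.AKY
open Pool.Agent.Helper90.C75 (Vt)

def d0 : DC := (scD C1.W (nwD C0.w C0.W C0.o5 C0.o3))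
def d1 : DC := (nwD C1.w C1.W C1.o5 C1.o3)
def H3 : Nat := Nat.mul HB C2.o3
def H5 : Nat := Nat.mul HB C2.o5
def HS : Nat := Nat.add (Nat.mul (nat_lit 1152921504606846976) C2.od) C2.W
def MS : Nat := Nat.sub (Nat.mul (nat_lit 2305843009213693952) C2.od) C2.o3
def W1 : Nat := C2.W
def F1 : Nat := Nat.mul (Nat.shiftRight HB C2.sr) C2.od
def F2 : Nat := Nat.mul (Nat.shiftRight B1 C2.sr) C2.o3
def SR : Nat := C2.sr
def O3 : Nat := C2.o3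
def G1 : Nat := Nat.mul (nat_lit 39614081257132168796771975168) C2.o3
def G2 : Nat := mkC C2
def rd1Y (U : Nat) : Z := (toz F1 (Nat.add (Nat.add (Nat.land (Nat.shiftRight (Nat.sub (Nat.add (Nat.add (Nat.mul (nat_lit 4) (Nat.add (Nat.land (Nat.sub (Nat.add (Nat.add (Nat.mul (nat_lit 4) (Nat.add (Nat.land U d0.m0) (Nat.shiftRight (Nat.land U d0.m4) d0.s2))) (Nat.shiftRight (Nat.land U d0.m2) d0.s)) d0.c) (Nat.add (Nat.shiftLeft (Nat.land U d0.m0) d0.s) (Nat.shiftRight (Nat.land U d0.m4) d0.s3))) d1.m0) (Nat.shiftRight (Nat.land (Nat.sub (Nat.add (Nat.add (Nat.mul (nat_lit 4) (Nat.add (Nat.land U d0.m0) (Nat.shiftRight (Nat.land U d0.m4) d0.s2))) (Nat.shiftRight (Nat.land U d0.m2) d0.s)) d0.c) (Nat.add (Nat.shiftLeft (Nat.land U d0.m0) d0.s) (Nat.shiftRight (Nat.land U d0.m4) d0.s3))) d1.m4) d1.s2))) (Nat.shiftRight (Nat.land (Nat.sub (Nat.add (Nat.add (Nat.mul (nat_lit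 4) (Nat.add (Nat.land U d0.m0) (Nat.shiftRight (Nat.land U d0.m4) d0.s2))) (Nat.shiftRight (Nat.land U d0.m2) d0.s)) d0.c) (Nat.add (Nat.shiftLeft (Nat.land U d0.m0) d0.s) (Nat.shiftRight (Nat.land U d0.m4) d0.s3))) d1.m2) d1.s)) d1.c) (Nat.add (Nat.shiftLeft (Nat.land (Nat.sub (Nat.add (Nat.add (Nat.mul (nat_lit 4) (Nat.add (Nat.land U d0.m0) (Nat.shiftRight (Nat.land U d0.m4) d0.s2))) (Nat.shiftRight (Nat.land U d0.m2) d0.s)) d0.c) (Nat.add (Nat.shiftLeft (Nat.land U d0.m0) d0.s) (Nat.shiftRight (Nat.land U d0.m4) d0.s3))) d1.m0) d1.s) (Nat.shiftRight (Nat.land (Nat.sub (Nat.add (Nat.add (Nat.mul (nat_lit 4) (Nat.add (Nat.land U d0.m0) (Nat.shiftRight (Nat.land U d0.m4) d0.s2))) (Nat.shiftRight (Nat.land U d0.m2) d0.s)) d0.c) (Nat.add (Nat.shiftLeft (Nat.land U d0.m0) d0.s) (Nat.shiftRight (Nat.land U d0.m4) d0.s3))) d1.m4) d1.s3))) SR) F2) (Nat.land (Nat.land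 (Nat.shiftRight (Nat.sub (Nat.add (Nat.add (Nat.mul (nat_lit 4) (Nat.add (Nat.land (Nat.sub (Nat.add (Nat.add (Nat.mul (nat_lit 4) (Nat.add (Nat.land U d0.m0) (Nat.shiftRight (Nat.land U d0.m4) d0.s2))) (Nat.shiftRight (Nat.land U d0.m2) d0.s)) d0.c) (Nat.add (Nat.shiftLeft (Nat.land U d0.m0) d0.s) (Nat.shiftRight (Nat.land U d0.m4) d0.s3))) d1.m0) (Nat.shiftRight (Nat.land (Nat.sub (Nat.add (Nat.add (Nat.mul (nat_lit 4) (Nat.add (Nat.land U d0.m0) (Nat.shiftRight (Nat.land U d0.m4) d0.s2))) (Nat.shiftRight (Nat.land U d0.m2) d0.s)) d0.c) (Nat.add (Nat.shiftLeft (Nat.land U d0.m0) d0.s) (Nat.shiftRight (Nat.land U d0.m4) d0.s3))) d1.m4) d1.s2))) (Nat.shiftRight (Nat.land (Nat.sub (Nat.add (Nat.add (Nat.mul (nat_lit 4) (Nat.add (Nat.land U d0.m0) (Nat.shiftRight (Nat.land U d0.m4) d0.s2))) (Nat.shiftRight (Nat.land U d0.m2) d0.s)) d0.c) (Nat.add (Nat.shiftLeft (Nat.land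 U d0.m0) d0.s) (Nat.shiftRight (Nat.land U d0.m4) d0.s3))) d1.m2) d1.s)) d1.c) (Nat.add (Nat.shiftLeft (Nat.land (Nat.sub (Nat.add (Nat.add (Nat.mul (nat_lit 4) (Nat.add (Nat.land U d0.m0) (Nat.shiftRight (Nat.land U d0.m4) d0.s2))) (Nat.shiftRight (Nat.land U d0.m2) d0.s)) d0.c) (Nat.add (Nat.shiftLeft (Nat.land U d0.m0) d0.s) (Nat.shiftRight (Nat.land U d0.m4) d0.s3))) d1.m0) d1.s) (Nat.shiftRight (Nat.land (Nat.sub (Nat.add (Nat.add (Nat.mul (nat_lit 4) (Nat.add (Nat.land U d0.m0) (Nat.shiftRight (Nat.land U d0.m4) d0.s2))) (Nat.shiftRight (Nat.land U d0.m2) d0.s)) d0.c) (Nat.add (Nat.shiftLeft (Nat.land U d0.m0) d0.s) (Nat.shiftRight (Nat.land U d0.m4) d0.s3))) d1.m4) d1.s3))) SR) F2) d0.tc)) (Nat.land (Nat.add (Nat.land (Nat.shiftRight (Nat.sub (Nat.add (Nat.add (Nat.mul (nat_lit 4) (Nat.add (Nat.land (Nat.sub (Nat.add (Nat.add (Nat.mul (nat_lit 4) (Nat.add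 (Nat.land U d0.m0) (Nat.shiftRight (Nat.land U d0.m4) d0.s2))) (Nat.shiftRight (Nat.land U d0.m2) d0.s)) d0.c) (Nat.add (Nat.shiftLeft (Nat.land U d0.m0) d0.s) (Nat.shiftRight (Nat.land U d0.m4) d0.s3))) d1.m0) (Nat.shiftRight (Nat.land (Nat.sub (Nat.add (Nat.add (Nat.mul (nat_lit 4) (Nat.add (Nat.land U d0.m0) (Nat.shiftRight (Nat.land U d0.m4) d0.s2))) (Nat.shiftRight (Nat.land U d0.m2) d0.s)) d0.c) (Nat.add (Nat.shiftLeft (Nat.land U d0.m0) d0.s) (Nat.shiftRight (Nat.land U d0.m4) d0.s3))) d1.m4) d1.s2))) (Nat.shiftRight (Nat.land (Nat.sub (Nat.add (Nat.add (Nat.mul (nat_lit 4) (Nat.add (Nat.land U d0.m0) (Nat.shiftRight (Nat.land U d0.m4) d0.s2))) (Nat.shiftRight (Nat.land U d0.m2) d0.s)) d0.c) (Nat.add (Nat.shiftLeft (Nat.land U d0.m0) d0.s) (Nat.shiftRight (Nat.land U d0.m4) d0.s3))) d1.m2) d1.s)) d1.c) (Nat.add (Nat.shiftLeft (Nat.land (Nat.sub (Nat.add (Nat.add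 (Nat.mul (nat_lit 4) (Nat.add (Nat.land U d0.m0) (Nat.shiftRight (Nat.land U d0.m4) d0.s2))) (Nat.shiftRight (Nat.land U d0.m2) d0.s)) d0.c) (Nat.add (Nat.shiftLeft (Nat.land U d0.m0) d0.s) (Nat.shiftRight (Nat.land U d0.m4) d0.s3))) d1.m0) d1.s) (Nat.shiftRight (Nat.land (Nat.sub (Nat.add (Nat.add (Nat.mul (nat_lit 4) (Nat.add (Nat.land U d0.m0) (Nat.shiftRight (Nat.land U d0.m4) d0.s2))) (Nat.shiftRight (Nat.land U d0.m2) d0.s)) d0.c) (Nat.add (Nat.shiftLeft (Nat.land U d0.m0) d0.s) (Nat.shiftRight (Nat.land U d0.m4) d0.s3))) d1.m4) d1.s3))) SR) F2) (Nat.land (Nat.land (Nat.shiftRight (Nat.sub (Nat.add (Nat.add (Nat.mul (nat_lit 4) (Nat.add (Nat.land (Nat.sub (Nat.add (Nat.add (Nat.mul (nat_lit 4) (Nat.add (Nat.land U d0.m0) (Nat.shiftRight (Nat.land U d0.m4) d0.s2))) (Nat.shiftRight (Nat.land U d0.m2) d0.s)) d0.c) (Nat.add (Nat.shiftLeft (Nat.land U d0.m0) d0.s)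 (Nat.shiftRight (Nat.land U d0.m4) d0.s3))) d1.m0) (Nat.shiftRight (Nat.land (Nat.sub (Nat.add (Nat.add (Nat.mul (nat_lit 4) (Nat.add (Nat.land U d0.m0) (Nat.shiftRight (Nat.land U d0.m4) d0.s2))) (Nat.shiftRight (Nat.land U d0.m2) d0.s)) d0.c) (Nat.add (Nat.shiftLeft (Nat.land U d0.m0) d0.s) (Nat.shiftRight (Nat.land U d0.m4) d0.s3))) d1.m4) d1.s2))) (Nat.shiftRight (Nat.land (Nat.sub (Nat.add (Nat.add (Nat.mul (nat_lit 4) (Nat.add (Nat.land U d0.m0) (Nat.shiftRight (Nat.land U d0.m4) d0.s2))) (Nat.shiftRight (Nat.land U d0.m2) d0.s)) d0.c) (Nat.add (Nat.shiftLeft (Nat.land U d0.m0) d0.s) (Nat.shiftRight (Nat.land U d0.m4) d0.s3))) d1.m2) d1.s)) d1.c) (Nat.add (Nat.shiftLeft (Nat.land (Nat.sub (Nat.add (Nat.add (Nat.mul (nat_lit 4) (Nat.add (Nat.land U d0.m0) (Nat.shiftRight (Nat.land U d0.m4) d0.s2))) (Nat.shiftRight (Nat.land U d0.m2) d0.s)) d0.c) (Nat.add (Nat.shiftLeft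 (Nat.land U d0.m0) d0.s) (Nat.shiftRight (Nat.land U d0.m4) d0.s3))) d1.m0) d1.s) (Nat.shiftRight (Nat.land (Nat.sub (Nat.add (Nat.add (Nat.mul (nat_lit 4) (Nat.add (Nat.land U d0.m0) (Nat.shiftRight (Nat.land U d0.m4) d0.s2))) (Nat.shiftRight (Nat.land U d0.m2) d0.s)) d0.c) (Nat.add (Nat.shiftLeft (Nat.land U d0.m0) d0.s) (Nat.shiftRight (Nat.land U d0.m4) d0.s3))) d1.m4) d1.s3))) SR) F2) d0.tc)) d1.tc)))
def rdY (U : Nat) : Z := Bool.rec (motive := fun _ => Z) (toz F1 (Nat.add (Nat.add (Nat.land (Nat.shiftRight (Nat.sub (Nat.add (Nat.add (Nat.mul (nat_lit 4) (Nat.add (Nat.land (Nat.sub (Nat.add (Nat.add (Nat.mul (nat_lit 4) (Nat.add (Nat.land U d0.m0) (Nat.shiftRight (Nat.land U d0.m4) d0.s2))) (Nat.shiftRight (Nat.land U d0.m2) d0.s)) d0.c) (Nat.add (Nat.shiftLeft (Nat.land U d0.m0) d0.s) (Nat.shiftRight (Nat.land U d0.m4) d0.s3))) d1.m0) (Nat.shiftRight (Nat.land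 (Nat.sub (Nat.add (Nat.add (Nat.mul (nat_lit 4) (Nat.add (Nat.land U d0.m0) (Nat.shiftRight (Nat.land U d0.m4) d0.s2))) (Nat.shiftRight (Nat.land U d0.m2) d0.s)) d0.c) (Nat.add (Nat.shiftLeft (Nat.land U d0.m0) d0.s) (Nat.shiftRight (Nat.land U d0.m4) d0.s3))) d1.m4) d1.s2))) (Nat.shiftRight (Nat.land (Nat.sub (Nat.add (Nat.add (Nat.mul (nat_lit 4) (Nat.add (Nat.land U d0.m0) (Nat.shiftRight (Nat.land U d0.m4) d0.s2))) (Nat.shiftRight (Nat.land U d0.m2) d0.s)) d0.c) (Nat.add (Nat.shiftLeft (Nat.land U d0.m0) d0.s) (Nat.shiftRight (Nat.land U d0.m4) d0.s3))) d1.m2) d1.s)) d1.c) (Nat.add (Nat.shiftLeft (Nat.land (Nat.sub (Nat.add (Nat.add (Nat.mul (nat_lit 4) (Nat.add (Nat.land U d0.m0) (Nat.shiftRight (Nat.land U d0.m4) d0.s2))) (Nat.shiftRight (Nat.land U d0.m2) d0.s)) d0.c) (Nat.add (Nat.shiftLeft (Nat.land U d0.m0) d0.s) (Nat.shiftRight (Nat.land U d0.m4) d0.s3)))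 d1.m0) d1.s) (Nat.shiftRight (Nat.land (Nat.sub (Nat.add (Nat.add (Nat.mul (nat_lit 4) (Nat.add (Nat.land U d0.m0) (Nat.shiftRight (Nat.land U d0.m4) d0.s2))) (Nat.shiftRight (Nat.land U d0.m2) d0.s)) d0.c) (Nat.add (Nat.shiftLeft (Nat.land U d0.m0) d0.s) (Nat.shiftRight (Nat.land U d0.m4) d0.s3))) d1.m4) d1.s3))) SR) F2) (Nat.land (Nat.land (Nat.shiftRight (Nat.sub (Nat.add (Nat.add (Nat.mul (nat_lit 4) (Nat.add (Nat.land (Nat.sub (Nat.add (Nat.add (Nat.mul (nat_lit 4) (Nat.add (Nat.land U d0.m0) (Nat.shiftRight (Nat.land U d0.m4) d0.s2))) (Nat.shiftRight (Nat.land U d0.m2) d0.s)) d0.c) (Nat.add (Nat.shiftLeft (Nat.land U d0.m0) d0.s) (Nat.shiftRight (Nat.land U d0.m4) d0.s3))) d1.m0) (Nat.shiftRight (Nat.land (Nat.sub (Nat.add (Nat.add (Nat.mul (nat_lit 4) (Nat.add (Nat.land U d0.m0) (Nat.shiftRight (Nat.land U d0.m4) d0.s2))) (Nat.shiftRight (Nat.land U d0.m2)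 d0.s)) d0.c) (Nat.add (Nat.shiftLeft (Nat.land U d0.m0) d0.s) (Nat.shiftRight (Nat.land U d0.m4) d0.s3))) d1.m4) d1.s2))) (Nat.shiftRight (Nat.land (Nat.sub (Nat.add (Nat.add (Nat.mul (nat_lit 4) (Nat.add (Nat.land U d0.m0) (Nat.shiftRight (Nat.land U d0.m4) d0.s2))) (Nat.shiftRight (Nat.land U d0.m2) d0.s)) d0.c) (Nat.add (Nat.shiftLeft (Nat.land U d0.m0) d0.s) (Nat.shiftRight (Nat.land U d0.m4) d0.s3))) d1.m2) d1.s)) d1.c) (Nat.add (Nat.shiftLeft (Nat.land (Nat.sub (Nat.add (Nat.add (Nat.mul (nat_lit 4) (Nat.add (Nat.land U d0.m0) (Nat.shiftRight (Nat.land U d0.m4) d0.s2))) (Nat.shiftRight (Nat.land U d0.m2) d0.s)) d0.c) (Nat.add (Nat.shiftLeft (Nat.land U d0.m0) d0.s) (Nat.shiftRight (Nat.land U d0.m4) d0.s3))) d1.m0) d1.s) (Nat.shiftRight (Nat.land (Nat.sub (Nat.add (Nat.add (Nat.mul (nat_lit 4) (Nat.add (Nat.land U d0.m0) (Nat.shiftRight (Nat.land U d0.m4)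 d0.s2))) (Nat.shiftRight (Nat.land U d0.m2) d0.s)) d0.c) (Nat.add (Nat.shiftLeft (Nat.land U d0.m0) d0.s) (Nat.shiftRight (Nat.land U d0.m4) d0.s3))) d1.m4) d1.s3))) SR) F2) d0.tc)) (Nat.land (Nat.add (Nat.land (Nat.shiftRight (Nat.sub (Nat.add (Nat.add (Nat.mul (nat_lit 4) (Nat.add (Nat.land (Nat.sub (Nat.add (Nat.add (Nat.mul (nat_lit 4) (Nat.add (Nat.land U d0.m0) (Nat.shiftRight (Nat.land U d0.m4) d0.s2))) (Nat.shiftRight (Nat.land U d0.m2) d0.s)) d0.c) (Nat.add (Nat.shiftLeft (Nat.land U d0.m0) d0.s) (Nat.shiftRight (Nat.land U d0.m4) d0.s3))) d1.m0) (Nat.shiftRight (Nat.land (Nat.sub (Nat.add (Nat.add (Nat.mul (nat_lit 4) (Nat.add (Nat.land U d0.m0) (Nat.shiftRight (Nat.land U d0.m4) d0.s2))) (Nat.shiftRight (Nat.land U d0.m2) d0.s)) d0.c) (Nat.add (Nat.shiftLeft (Nat.land U d0.m0) d0.s) (Nat.shiftRight (Nat.land U d0.m4) d0.s3))) d1.m4) d1.s2))) (Nat.shiftRight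 (Nat.land (Nat.sub (Nat.add (Nat.add (Nat.mul (nat_lit 4) (Nat.add (Nat.land U d0.m0) (Nat.shiftRight (Nat.land U d0.m4) d0.s2))) (Nat.shiftRight (Nat.land U d0.m2) d0.s)) d0.c) (Nat.add (Nat.shiftLeft (Nat.land U d0.m0) d0.s) (Nat.shiftRight (Nat.land U d0.m4) d0.s3))) d1.m2) d1.s)) d1.c) (Nat.add (Nat.shiftLeft (Nat.land (Nat.sub (Nat.add (Nat.add (Nat.mul (nat_lit 4) (Nat.add (Nat.land U d0.m0) (Nat.shiftRight (Nat.land U d0.m4) d0.s2))) (Nat.shiftRight (Nat.land U d0.m2) d0.s)) d0.c) (Nat.add (Nat.shiftLeft (Nat.land U d0.m0) d0.s) (Nat.shiftRight (Nat.land U d0.m4) d0.s3))) d1.m0) d1.s) (Nat.shiftRight (Nat.land (Nat.sub (Nat.add (Nat.add (Nat.mul (nat_lit 4) (Nat.add (Nat.land U d0.m0) (Nat.shiftRight (Nat.land U d0.m4) d0.s2))) (Nat.shiftRight (Nat.land U d0.m2) d0.s)) d0.c) (Nat.add (Nat.shiftLeft (Nat.land U d0.m0) d0.s) (Nat.shiftRight (Nat.land U d0.m4)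 d0.s3))) d1.m4) d1.s3))) SR) F2) (Nat.land (Nat.land (Nat.shiftRight (Nat.sub (Nat.add (Nat.add (Nat.mul (nat_lit 4) (Nat.add (Nat.land (Nat.sub (Nat.add (Nat.add (Nat.mul (nat_lit 4) (Nat.add (Nat.land U d0.m0) (Nat.shiftRight (Nat.land U d0.m4) d0.s2))) (Nat.shiftRight (Nat.land U d0.m2) d0.s)) d0.c) (Nat.add (Nat.shiftLeft (Nat.land U d0.m0) d0.s) (Nat.shiftRight (Nat.land U d0.m4) d0.s3))) d1.m0) (Nat.shiftRight (Nat.land (Nat.sub (Nat.add (Nat.add (Nat.mul (nat_lit 4) (Nat.add (Nat.land U d0.m0) (Nat.shiftRight (Nat.land U d0.m4) d0.s2))) (Nat.shiftRight (Nat.land U d0.m2) d0.s)) d0.c) (Nat.add (Nat.shiftLeft (Nat.land U d0.m0) d0.s) (Nat.shiftRight (Nat.land U d0.m4) d0.s3))) d1.m4) d1.s2))) (Nat.shiftRight (Nat.land (Nat.sub (Nat.add (Nat.add (Nat.mul (nat_lit 4) (Nat.add (Nat.land U d0.m0) (Nat.shiftRight (Nat.land U d0.m4) d0.s2))) (Nat.shiftRight (Nat.land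 U d0.m2) d0.s)) d0.c) (Nat.add (Nat.shiftLeft (Nat.land U d0.m0) d0.s) (Nat.shiftRight (Nat.land U d0.m4) d0.s3))) d1.m2) d1.s)) d1.c) (Nat.add (Nat.shiftLeft (Nat.land (Nat.sub (Nat.add (Nat.add (Nat.mul (nat_lit 4) (Nat.add (Nat.land U d0.m0) (Nat.shiftRight (Nat.land U d0.m4) d0.s2))) (Nat.shiftRight (Nat.land U d0.m2) d0.s)) d0.c) (Nat.add (Nat.shiftLeft (Nat.land U d0.m0) d0.s) (Nat.shiftRight (Nat.land U d0.m4) d0.s3))) d1.m0) d1.s) (Nat.shiftRight (Nat.land (Nat.sub (Nat.add (Nat.add (Nat.mul (nat_lit 4) (Nat.add (Nat.land U d0.m0) (Nat.shiftRight (Nat.land U d0.m4) d0.s2))) (Nat.shiftRight (Nat.land U d0.m2) d0.s)) d0.c) (Nat.add (Nat.shiftLeft (Nat.land U d0.m0) d0.s) (Nat.shiftRight (Nat.land U d0.m4) d0.s3))) d1.m4) d1.s3))) SR) F2) d0.tc)) d1.tc))) (Z.p (nat_lit 0)) (Nat.beq U H5)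
def mcY (U : Nat) : Z := (toz G1 (Nat.land (Nat.shiftRight U (nat_lit 48)) G2))
def smY (z : Z) : Bool := Z.rec (motive := fun _ => Bool) (fun x => (Nat.beq (Nat.add HS x) (Nat.add (Nat.land (Nat.add HS x) MS) W1))) (fun x => (Nat.beq (Nat.sub HS x) (Nat.add (Nat.land (Nat.sub HS x) MS) W1))) z
def abJ (V : Nat) : Nat := Nat.sub (Nat.add (Nat.land V (Nat.sub (Nat.shiftLeft (Nat.land (Nat.shiftRight V (nat_lit 143)) O3) (nat_lit 144)) (Nat.land (Nat.shiftRight V (nat_lit 143)) O3))) H3) (Nat.add (Nat.sub V (Nat.land V (Nat.sub (Nat.shiftLeft (Nat.land (Nat.shiftRight V (nat_lit 143)) O3) (nat_lit 144)) (Nat.land (Nat.shiftRight V (nat_lit 143)) O3)))) (Nat.shiftLeft (Nat.land (Nat.shiftRight V (nat_lit 143)) O3) (nat_lit 144)))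
def abTY (z : Z) : Nat := Z.rec (motive := fun _ => Nat) (fun x => abJ (Nat.sub (Nat.add (Nat.add (Nat.add (Nat.add (Nat.shiftRight (Nat.land (Nat.sub (Nat.add (Nat.add (Nat.add (Nat.add (Nat.shiftRight (Nat.land (Nat.add H3 x) d0.tc) d0.s) (Nat.shiftRight (Nat.land (Nat.add H3 x) d0.tb) d0.s)) (Nat.shiftLeft (Nat.land (Nat.add H3 x) d0.ta) d0.s2)) (Nat.land (Nat.add H3 x) d0.tb)) d0.k) (Nat.shiftLeft (Nat.add (Nat.land (Nat.add H3 x) d0.ta) (Nat.land (Nat.add H3 x) d0.tc)) d0.s)) d1.tc) d1.s) (Nat.shiftRight (Nat.land (Nat.sub (Nat.add (Nat.add (Nat.add (Nat.add (Nat.shiftRight (Nat.land (Nat.add H3 x) d0.tc) d0.s) (Nat.shiftRight (Nat.land (Nat.add H3 x) d0.tb) d0.s)) (Nat.shiftLeft (Nat.land (Nat.add H3 x) d0.ta) d0.s2)) (Nat.land (Nat.add H3 x) d0.tb)) d0.k) (Nat.shiftLeft (Nat.add (Nat.land (Nat.add H3 x) d0.ta) (Nat.land (Nat.add H3 x) d0.tc)) d0.s)) d1.tb)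 d1.s)) (Nat.shiftLeft (Nat.land (Nat.sub (Nat.add (Nat.add (Nat.add (Nat.add (Nat.shiftRight (Nat.land (Nat.add H3 x) d0.tc) d0.s) (Nat.shiftRight (Nat.land (Nat.add H3 x) d0.tb) d0.s)) (Nat.shiftLeft (Nat.land (Nat.add H3 x) d0.ta) d0.s2)) (Nat.land (Nat.add H3 x) d0.tb)) d0.k) (Nat.shiftLeft (Nat.add (Nat.land (Nat.add H3 x) d0.ta) (Nat.land (Nat.add H3 x) d0.tc)) d0.s)) d1.ta) d1.s2)) (Nat.land (Nat.sub (Nat.add (Nat.add (Nat.add (Nat.add (Nat.shiftRight (Nat.land (Nat.add H3 x) d0.tc) d0.s) (Nat.shiftRight (Nat.land (Nat.add H3 x) d0.tb) d0.s)) (Nat.shiftLeft (Nat.land (Nat.add H3 x) d0.ta) d0.s2)) (Nat.land (Nat.add H3 x) d0.tb)) d0.k) (Nat.shiftLeft (Nat.add (Nat.land (Nat.add H3 x) d0.ta) (Nat.land (Nat.add H3 x) d0.tc)) d0.s)) d1.tb)) d1.k) (Nat.shiftLeft (Nat.add (Nat.land (Nat.sub (Nat.add (Nat.add (Nat.add (Nat.add (Nat.shiftRight (Nat.land (Nat.add H3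 x) d0.tc) d0.s) (Nat.shiftRight (Nat.land (Nat.add H3 x) d0.tb) d0.s)) (Nat.shiftLeft (Nat.land (Nat.add H3 x) d0.ta) d0.s2)) (Nat.land (Nat.add H3 x) d0.tb)) d0.k) (Nat.shiftLeft (Nat.add (Nat.land (Nat.add H3 x) d0.ta) (Nat.land (Nat.add H3 x) d0.tc)) d0.s)) d1.ta) (Nat.land (Nat.sub (Nat.add (Nat.add (Nat.add (Nat.add (Nat.shiftRight (Nat.land (Nat.add H3 x) d0.tc) d0.s) (Nat.shiftRight (Nat.land (Nat.add H3 x) d0.tb) d0.s)) (Nat.shiftLeft (Nat.land (Nat.add H3 x) d0.ta) d0.s2)) (Nat.land (Nat.add H3 x) d0.tb)) d0.k) (Nat.shiftLeft (Nat.add (Nat.land (Nat.add H3 x) d0.ta) (Nat.land (Nat.add H3 x) d0.tc)) d0.s)) d1.tc)) d1.s))) (fun x => abJ (Nat.sub (Nat.add (Nat.add (Nat.add (Nat.add (Nat.shiftRight (Nat.land (Nat.sub (Nat.add (Nat.add (Nat.add (Nat.add (Nat.shiftRight (Nat.land (Nat.sub H3 x) d0.tc) d0.s) (Nat.shiftRight (Nat.land (Nat.sub H3 x) d0.tb) d0.s))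 (Nat.shiftLeft (Nat.land (Nat.sub H3 x) d0.ta) d0.s2)) (Nat.land (Nat.sub H3 x) d0.tb)) d0.k) (Nat.shiftLeft (Nat.add (Nat.land (Nat.sub H3 x) d0.ta) (Nat.land (Nat.sub H3 x) d0.tc)) d0.s)) d1.tc) d1.s) (Nat.shiftRight (Nat.land (Nat.sub (Nat.add (Nat.add (Nat.add (Nat.add (Nat.shiftRight (Nat.land (Nat.sub H3 x) d0.tc) d0.s) (Nat.shiftRight (Nat.land (Nat.sub H3 x) d0.tb) d0.s)) (Nat.shiftLeft (Nat.land (Nat.sub H3 x) d0.ta) d0.s2)) (Nat.land (Nat.sub H3 x) d0.tb)) d0.k) (Nat.shiftLeft (Nat.add (Nat.land (Nat.sub H3 x) d0.ta) (Nat.land (Nat.sub H3 x) d0.tc)) d0.s)) d1.tb) d1.s)) (Nat.shiftLeft (Nat.land (Nat.sub (Nat.add (Nat.add (Nat.add (Nat.add (Nat.shiftRight (Nat.land (Nat.sub H3 x) d0.tc) d0.s) (Nat.shiftRight (Nat.land (Nat.sub H3 x) d0.tb) d0.s)) (Nat.shiftLeft (Nat.land (Nat.sub H3 x) d0.ta) d0.s2)) (Nat.land (Nat.sub H3 x) d0.tb)) d0.k) (Nat.shiftLeft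 (Nat.add (Nat.land (Nat.sub H3 x) d0.ta) (Nat.land (Nat.sub H3 x) d0.tc)) d0.s)) d1.ta) d1.s2)) (Nat.land (Nat.sub (Nat.add (Nat.add (Nat.add (Nat.add (Nat.shiftRight (Nat.land (Nat.sub H3 x) d0.tc) d0.s) (Nat.shiftRight (Nat.land (Nat.sub H3 x) d0.tb) d0.s)) (Nat.shiftLeft (Nat.land (Nat.sub H3 x) d0.ta) d0.s2)) (Nat.land (Nat.sub H3 x) d0.tb)) d0.k) (Nat.shiftLeft (Nat.add (Nat.land (Nat.sub H3 x) d0.ta) (Nat.land (Nat.sub H3 x) d0.tc)) d0.s)) d1.tb)) d1.k) (Nat.shiftLeft (Nat.add (Nat.land (Nat.sub (Nat.add (Nat.add (Nat.add (Nat.add (Nat.shiftRight (Nat.land (Nat.sub H3 x) d0.tc) d0.s) (Nat.shiftRight (Nat.land (Nat.sub H3 x) d0.tb) d0.s)) (Nat.shiftLeft (Nat.land (Nat.sub H3 x) d0.ta) d0.s2)) (Nat.land (Nat.sub H3 x) d0.tb)) d0.k) (Nat.shiftLeft (Nat.add (Nat.land (Nat.sub H3 x) d0.ta) (Nat.land (Nat.sub H3 x) d0.tc)) d0.s)) d1.ta) (Nat.land (Nat.sub (Nat.add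 (Nat.add (Nat.add (Nat.add (Nat.shiftRight (Nat.land (Nat.sub H3 x) d0.tc) d0.s) (Nat.shiftRight (Nat.land (Nat.sub H3 x) d0.tb) d0.s)) (Nat.shiftLeft (Nat.land (Nat.sub H3 x) d0.ta) d0.s2)) (Nat.land (Nat.sub H3 x) d0.tb)) d0.k) (Nat.shiftLeft (Nat.add (Nat.land (Nat.sub H3 x) d0.ta) (Nat.land (Nat.sub H3 x) d0.tc)) d0.s)) d1.tc)) d1.s))) z
def mR (a b : Z) (k : Bool) (c d : Z) (l : Bool) : Z :=
  Bool.rec (motive := fun _ => Z)
    (Bool.rec (motive := fun _ => Z) (rdY (dmu H5 a c b d)) (mcY (dmu H3 (lowZ c) a (lowZ d) b)) l)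
    (mcY (dmu H3 (lowZ a) c (lowZ b) d)) k
def mI (a b : Z) (k : Bool) (c d : Z) (l : Bool) : Z :=
  Bool.rec (motive := fun _ => Z)
    (Bool.rec (motive := fun _ => Z) (rdY (emu H5 a d b c)) (mcY (emu H3 (lowZ c) b (lowZ d) a)) l)
    (mcY (emu H3 (lowZ a) d (lowZ b) c)) k
def nbY (X : (PA 2)) : Nat :=
  Bool.rec (motive := fun _ => Nat) (gnb X.I) (Nat.shiftRight (Nat.add (sqZ (Nat.mod (abTY X.re) B1) (Nat.mod (abTY X.im) B1)) (nat_lit 3)) (nat_lit 2)) X.ok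
def dfL (x y : Nat) : List DF := (⟨(Nat.shiftRight (Nat.add (sqZ (Nat.mod (Nat.land x d1.tc) B1) (Nat.mod (Nat.land y d1.tc) B1)) (nat_lit 1)) (nat_lit 1)), (Nat.shiftRight (Nat.add (sqZ (Nat.mod (Nat.land x d1.tb) B1) (Nat.mod (Nat.land y d1.tb) B1)) (nat_lit 3)) (nat_lit 2))⟩ :: (⟨(Nat.shiftRight (Nat.add (sqZ (Nat.mod (Nat.land x d0.tc) B1) (Nat.mod (Nat.land y d0.tc) B1)) (nat_lit 1)) (nat_lit 1)), (Nat.shiftRight (Nat.add (sqZ (Nat.mod (Nat.land x d0.tb) B1) (Nat.mod (Nat.land y d0.tb) B1)) (nat_lit 3)) (nat_lit 2))⟩ :: []))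
def dfY (X : (PA 2)) : List DF :=
  Bool.rec (motive := fun _ => List DF) (gdf X) (dfL (abTY X.re) (abTY X.im)) X.ok

theorem h0 : rd1 C2 (Nat.mul HB C2.o5) = Z.p 0 := by
  have h : Z.rec (motive := fun _ => Bool) (fun n => Nat.beq n (nat_lit 0)) (fun _ => false)
    (rd1 C2 (Nat.mul HB C2.o5)) = true := by decide +kernel
  cases e : rd1 C2 (Nat.mul HB C2.o5) with
  | p n =>
    rw [e] at h
    exact congrArg Z.p (Nat.eq_of_beq_eq_true h)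
  | m n =>
    rw [e] at h
    exact absurd (show false = true from h) (by decide)
theorem hp : 0 < Nat.mul HB C2.o5 := by decide +kernel
theorem rd1Y_eq (U : Nat) : rd1Y U = rd1 C2 U := by
  have e : rd1 C2 U = toz F1 (dblY d1 (dblY d0 (Nat.land (Nat.shiftRight (stgY d1 (stgY d0 U)) SR) F2))) := rfl
  refine Eq.trans ?_ e.symm
  exact congrArg (toz F1) rfl
theorem rdY_eq (z : Z) : rdY (ofs H5 z) = rd C2 z := rd_eq rd1Y_eq h0 hp z
theorem mcY_eq (z : Z) : mcY (ofs H3 z) = mc C2 z := rfl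
theorem smY_eq (z : Z) : smY z = sm C2 z := by cases z <;> rfl
theorem abTY_eq (z : Z) : abTY z = abT C2 z := by cases z <;> rfl
theorem mR_eq (X Y : (PA 2)) : mR X.re X.im X.k Y.re Y.im Y.k = mulR C2 X Y := by
  unfold mR mulR
  rw [dmu_eq, dmu_eq, dmu_eq, rdY_eq, mcY_eq, mcY_eq]
theorem mI_eq (X Y : (PA 2)) : mI X.re X.im X.k Y.re Y.im Y.k = mulI C2 X Y := by
  unfold mI mulI
  rw [emu_eq, emu_eq, emu_eq, rdY_eq, mcY_eq, mcY_eq]
theorem mul_hY (X Y : (PA 2)) (h : andB (andB X.ok Y.ok) (andB (smY (mR X.re X.im X.k Y.re Y.im Y.k))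
      (smY (mI X.re X.im X.k Y.re Y.im Y.k))) = true) :
    PR 2 (gmul 2 X.I Y.I) (Z.rec (motive := fun _ => Z) (fun x => Z.p x) (fun x => Z.m x)
      (mR X.re X.im X.k Y.re Y.im Y.k)) (Z.rec (motive := fun _ => Z) (fun x => Z.p x) (fun x => Z.m x)
      (mI X.re X.im X.k Y.re Y.im Y.k)) := by
  rw [mR_eq, mI_eq, smY_eq, smY_eq] at h
  rw [mR_eq, mI_eq, zid_eq, zid_eq]
  exact mul_h hC2 X Y h
theorem add_hY (X Y : (PA 2)) (h : andB (andB X.ok Y.ok) (andB (smY (adY X.re Y.re))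
      (smY (adY X.im Y.im))) = true) :
    PR 2 (fun v => X.I v + Y.I v) (Z.rec (motive := fun _ => Z) (fun x => Z.p x) (fun x => Z.m x)
      (adY X.re Y.re)) (Z.rec (motive := fun _ => Z) (fun x => Z.p x) (fun x => Z.m x)
      (adY X.im Y.im)) := by
  rw [adY_eq, adY_eq, smY_eq, smY_eq] at h
  rw [adY_eq, adY_eq, zid_eq, zid_eq]
  exact add_h hC2 X Y h
theorem sub_hY (X Y : (PA 2)) (h : andB (andB X.ok Y.ok) (andB (smY (suY X.re Y.re))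
      (smY (suY X.im Y.im))) = true) :
    PR 2 (fun v => X.I v - Y.I v) (Z.rec (motive := fun _ => Z) (fun x => Z.p x) (fun x => Z.m x)
      (suY X.re Y.re)) (Z.rec (motive := fun _ => Z) (fun x => Z.p x) (fun x => Z.m x)
      (suY X.im Y.im)) := by
  rw [suY_eq, suY_eq, smY_eq, smY_eq] at h
  rw [suY_eq, suY_eq, zid_eq, zid_eq]
  exact sub_h hC2 X Y h

def mulY (X Y : (PA 2)) : (PA 2) :=
  PA.rec (motive := fun _ => (PA 2)) (fun I sh re im ok k hs h hk =>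
    PA.rec (motive := fun _ => (PA 2)) (fun I' sh' re' im' ok' k' hs' h' hk' =>
      ⟨gmul 2 I I', orL sh sh', (Z.rec (motive := fun _ => Z) (fun x => Z.p x) (fun x => Z.m x) (mR re im k re' im' k')), (Z.rec (motive := fun _ => Z) (fun x => Z.p x) (fun x => Z.m x) (mI re im k re' im' k')), (Bool.rec (motive := fun _ => Bool) false (Bool.rec (motive := fun _ => Bool) false (smY (mI re im k re' im' k')) (smY (mR re im k re' im' k'))) (Bool.rec (motive := fun _ => Bool) false ok' ok)), (Bool.rec (motive := fun _ => Bool) false k' k),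
        mul_hs ⟨I, sh, re, im, ok, k, hs, h, hk⟩ ⟨I', sh', re', im', ok', k', hs', h', hk'⟩, mul_hY ⟨I, sh, re, im, ok, k, hs, h, hk⟩ ⟨I', sh', re', im', ok', k', hs', h', hk'⟩, mul_hk ⟨I, sh, re, im, ok, k, hs, h, hk⟩ ⟨I', sh', re', im', ok', k', hs', h', hk'⟩⟩) Y) X
def addY (X Y : (PA 2)) : (PA 2) :=
  PA.rec (motive := fun _ => (PA 2)) (fun I sh re im ok k hs h hk =>
    PA.rec (motive := fun _ => (PA 2)) (fun I' sh' re' im' ok' k' hs' h' hk' =>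
      ⟨fun v => I v + I' v, orL sh sh', (Z.rec (motive := fun _ => Z) (fun x => Z.p x) (fun x => Z.m x) (adY re re')), (Z.rec (motive := fun _ => Z) (fun x => Z.p x) (fun x => Z.m x) (adY im im')), (Bool.rec (motive := fun _ => Bool) false (Bool.rec (motive := fun _ => Bool) false (smY (adY im im')) (smY (adY re re'))) (Bool.rec (motive := fun _ => Bool) false ok' ok)), (Bool.rec (motive := fun _ => Bool) false k' k),
        add_hs ⟨I, sh, re, im, ok, k, hs, h, hk⟩ ⟨I', sh', re', im', ok', k', hs', h', hk'⟩, add_hY ⟨I, sh, re, im, ok, k, hs, h, hk⟩ ⟨I', sh', re', im', ok', k', hs', h', hk'⟩, add_hk ⟨I, sh, re, im, ok, k, hs, h, hk⟩ ⟨I', sh', re', im', ok', k', hs', h', hk'⟩⟩) Y) X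
def subY (X Y : (PA 2)) : (PA 2) :=
  PA.rec (motive := fun _ => (PA 2)) (fun I sh re im ok k hs h hk =>
    PA.rec (motive := fun _ => (PA 2)) (fun I' sh' re' im' ok' k' hs' h' hk' =>
      ⟨fun v => I v - I' v, orL sh sh', (Z.rec (motive := fun _ => Z) (fun x => Z.p x) (fun x => Z.m x) (suY re re')), (Z.rec (motive := fun _ => Z) (fun x => Z.p x) (fun x => Z.m x) (suY im im')), (Bool.rec (motive := fun _ => Bool) false (Bool.rec (motive := fun _ => Bool) false (smY (suY im im')) (smY (suY re re'))) (Bool.rec (motive := fun _ => Bool) false ok' ok)), (Bool.rec (motive := fun _ => Bool) false k' k),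
        sub_hs ⟨I, sh, re, im, ok, k, hs, h, hk⟩ ⟨I', sh', re', im', ok', k', hs', h', hk'⟩, sub_hY ⟨I, sh, re, im, ok, k, hs, h, hk⟩ ⟨I', sh', re', im', ok', k', hs', h', hk'⟩, sub_hk ⟨I, sh, re, im, ok, k, hs, h, hk⟩ ⟨I', sh', re', im', ok', k', hs', h', hk'⟩⟩) Y) X
def nwY (n : Nat) (X Y : (PA 2)) : (PA 2) :=
  Nat.rec (motive := fun _ => (PA 2) → (PA 2)) (fun Y => Y)
    (fun _ ih Y => ih (mulY Y (subY (csK hC2 ⟨Z.p (nat_lit 562949953421312), Z.p (nat_lit 0)⟩) (mulY X Y)))) n Y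
def invY (X : (PA 2)) : (PA 2) := nwY (nat_lit 7) X (csK hC2 (cdiv one1 (midK C2 X)))
def AY : Alg (PA 2) := ⟨addY, subY, mulY, q4K, cjK, csK hC2, invY, nbY, dfY⟩

theorem mulY_eq : mulY = mulK hC2 := by
  funext X Y
  refine PA_ext rfl rfl ((zid_eq _).trans (mR_eq X Y)) ((zid_eq _).trans (mI_eq X Y)) ?_ rfl
  show andB (andB X.ok Y.ok) (andB (smY (mR X.re X.im X.k Y.re Y.im Y.k)) (smY (mI X.re X.im X.k Y.re Y.im Y.k))) =
    andB (andB X.ok Y.ok) (andB (sm C2 (mulR C2 X Y)) (sm C2 (mulI C2 X Y)))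
  rw [mR_eq, mI_eq, smY_eq, smY_eq]
theorem addY_eq : addY = addK hC2 := by
  funext X Y
  refine PA_ext rfl rfl ((zid_eq _).trans (adY_eq _ _)) ((zid_eq _).trans (adY_eq _ _)) ?_ rfl
  show andB (andB X.ok Y.ok) (andB (smY (adY X.re Y.re)) (smY (adY X.im Y.im))) =
    andB (andB X.ok Y.ok) (andB (sm C2 (Z.add X.re Y.re)) (sm C2 (Z.add X.im Y.im)))
  rw [adY_eq, adY_eq, smY_eq, smY_eq]
theorem subY_eq : subY = subK hC2 := by
  funext X Y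
  refine PA_ext rfl rfl ((zid_eq _).trans (suY_eq _ _)) ((zid_eq _).trans (suY_eq _ _)) ?_ rfl
  show andB (andB X.ok Y.ok) (andB (smY (suY X.re Y.re)) (smY (suY X.im Y.im))) =
    andB (andB X.ok Y.ok) (andB (sm C2 (Z.sub X.re Y.re)) (sm C2 (Z.sub X.im Y.im)))
  rw [suY_eq, suY_eq, smY_eq, smY_eq]
theorem nbY_eq : nbY = nbK C2 := by
  funext X
  unfold nbY nbK
  rw [abTY_eq, abTY_eq]
  rfl
theorem dfY_eq : dfY = dfK C2 := by
  funext X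
  unfold dfY dfK
  rw [abTY_eq, abTY_eq]
  rfl
theorem invY_eq : invY = invK hC2 := by
  funext X
  unfold invY invK nwY nwt
  rw [mulY_eq, subY_eq]
/-- the algebra is unchanged -/
theorem AY_eq : AY = AK hC2 := by
  unfold AY AK
  rw [addY_eq, subY_eq, mulY_eq, invY_eq, nbY_eq, dfY_eq]

end Pool.Agent.Helper57.AKY.Y2
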