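import Pool.Agent.Helper57.AKY.P1
import Pool.Agent.Helper57.AKY.P2
import Pool.Agent.Helper57.AKY.P3
import Pool.Agent.Helper57.AKY.P4

/-!
`AY_eq` for the depths 1 to 4.
-/
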